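import Pool.Agent.helper55.NM.Spec

set_option autoImplicit false

namespace Pool.Agent.helper95.NM

open Pool.Agent.NM Finset Nat

theorem BIN_id (i j r u : ℕ) :
    (r + u).choose r * (i + j + (r + u)).descFactorial (i + j) =
      (i + j + (r + u)).choose (r + i) * ((r + i).descFactorial i * (j + u).descFactorial j) := by
  have h1 : r ! * (r + i).descFactorial i = (r + i) ! := by
    have := Nat.factorial_mul_descFactorial (n := r + i) (k := i) (by omega)
    rwa [Nat.add_sub_cancel] at this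
  have h2 : u ! * (j + u).descFactorial j = (j + u) ! := by
    have := Nat.factorial_mul_descFactorial (n := j + u) (k := j) (by omega)
    rwa [Nat.add_sub_cancel_left] at this
  have h3 : (r + u) ! * (i + j + (r + u)).descFactorial (i + j) = (i + j + (r + u)) ! := by
    have := Nat.factorial_mul_descFactorial (n := i + j + (r + u)) (k := i + j) (by omega)
    rwa [Nat.add_sub_cancel_left] at this
  have h4 : (r + u).choose r * r ! * u ! = (r + u) ! := by
    have := Nat.choose_mul_factorial_mul_factorial (n := r + u) (k := r) (by omega)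
    rwa [Nat.add_sub_cancel_left] at this
  have h5 : (i + j + (r + u)).choose (r + i) * (r + i) ! * (j + u) ! = (i + j + (r + u)) ! := by
    have := Nat.choose_mul_factorial_mul_factorial (n := i + j + (r + u)) (k := r + i) (by omega)
    have e : i + j + (r + u) - (r + i) = j + u := by omega
    rwa [e] at this
  have hpos : 0 < r ! * u ! := Nat.mul_pos (Nat.factorial_pos r) (Nat.factorial_pos u)
  apply Nat.eq_of_mul_eq_mul_right hpos
  calc (r + u).choose r * (i + j + (r + u)).descFactorial (i + j) * (r ! * u !)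
      = ((r + u).choose r * r ! * u !) * (i + j + (r + u)).descFactorial (i + j) := by ring
    _ = (i + j + (r + u)) ! := by rw [h4, h3]
    _ = (i + j + (r + u)).choose (r + i) * (r ! * (r + i).descFactorial i) *
          (u ! * (j + u).descFactorial j) := by rw [h1, h2, h5]
    _ = (i + j + (r + u)).choose (r + i) * ((r + i).descFactorial i * (j + u).descFactorial j) *
          (r ! * u !) := by ring

theorem BIN_step (q k : ℕ) (R : ℝ) (hkq : k ≤ q) (hR0 : 0 ≤ R) (hR : (k : ℝ) ≤ R * ((q : ℝ) - k)) :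
    ∀ d s : ℕ, s + d ≤ k → (q.choose s : ℝ) ≤ R ^ d * q.choose (s + d) := by
  intro d
  induction d with
  | zero => intro s _; simp
  | succ d ih =>
    intro s hs
    have h1 := ih (s + 1) (by omega)
    have h2 : (q.choose s : ℝ) ≤ R * q.choose (s + 1) := by
      have e1 := Nat.choose_succ_right_eq q s
      have e2 : (q.choose (s + 1) : ℝ) * ((s : ℝ) + 1) = q.choose s * ((q : ℝ) - s) := by
        have e3 : s ≤ q := by omega
        have e4 : ((q.choose (s + 1) * (s + 1) : ℕ) : ℝ) = ((q.choose s * (q - s) : ℕ) : ℝ) := by rw [e1]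
        push_cast [Nat.cast_sub e3] at e4
        exact e4
      have hsk : ((s : ℝ) + 1) ≤ k := by exact_mod_cast (by omega : s + 1 ≤ k)
      have hkq' : (k : ℝ) ≤ q := by exact_mod_cast hkq
      have h3 : ((s : ℝ) + 1) ≤ R * ((q : ℝ) - s) := by
        have h4 : R * ((q : ℝ) - k) ≤ R * ((q : ℝ) - s) :=
          mul_le_mul_of_nonneg_left (by linarith) hR0
        linarith
      have hc : (0 : ℝ) ≤ q.choose (s + 1) := Nat.cast_nonneg _
      have hpos : (0 : ℝ) < (q : ℝ) - s := by linarith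
      have h5 : (q.choose s : ℝ) * ((q : ℝ) - s) ≤ (R * q.choose (s + 1)) * ((q : ℝ) - s) := by
        rw [← e2]
        calc (q.choose (s + 1) : ℝ) * ((s : ℝ) + 1) ≤ q.choose (s + 1) * (R * ((q : ℝ) - s)) :=
              mul_le_mul_of_nonneg_left h3 hc
          _ = _ := by ring
      exact le_of_mul_le_mul_right h5 hpos
    have e : s + 1 + d = s + (d + 1) := by ring
    rw [e] at h1
    calc (q.choose s : ℝ) ≤ R * q.choose (s + 1) := h2
      _ ≤ R * (R ^ d * q.choose (s + (d + 1))) := mul_le_mul_of_nonneg_left h1 hR0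
      _ = _ := by ring

theorem BIN_main (i j r u : ℕ) (hn : 0 < i + j + (r + u)) :
    (1 - ((i + j : ℕ) : ℝ) ^ 2 / ((i + j + (r + u) : ℕ) : ℝ)) * ((r + u).choose r : ℝ) ≤
      (((r + i : ℕ) : ℝ) / ((i + j + (r + u) : ℕ) : ℝ)) ^ i *
        (1 - ((r + i : ℕ) : ℝ) / ((i + j + (r + u) : ℕ) : ℝ)) ^ j * ((i + j + (r + u)).choose (r + i) : ℝ) := by
  set n : ℕ := i + j + (r + u) with hndef
  set p : ℕ := i + j with hp
  have hnR : (0 : ℝ) < n := by exact_mod_cast hn
  have hpn : p ≤ n := by omega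
  have hid := BIN_id i j r u
  rw [← hp, ← hndef] at hid
  -- lower bound for the falling factorial
  have hlow : (1 - (p : ℝ) ^ 2 / n) * (n : ℝ) ^ p ≤ (n.descFactorial p : ℝ) := by
    have h1 : (n + 1 - p) ^ p ≤ n.descFactorial p := Nat.pow_sub_le_descFactorial n p
    have h2 : (n - p) ^ p ≤ n.descFactorial p := le_trans (Nat.pow_le_pow_left (by omega) p) h1
    have h3 : (((n : ℝ) - p)) ^ p ≤ (n.descFactorial p : ℝ) := by
      have h4 : (((n - p : ℕ) : ℝ)) ^ p ≤ (n.descFactorial p : ℝ) := by exact_mod_cast h2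
      rwa [Nat.cast_sub hpn] at h4
    have hpR : (p : ℝ) ≤ n := by exact_mod_cast hpn
    have hb : 1 + (p : ℝ) * (-((p : ℝ) / n)) ≤ (1 + (-((p : ℝ) / n))) ^ p := by
      apply one_add_mul_le_pow
      have : (p : ℝ) / n ≤ 1 := (div_le_one hnR).2 hpR
      linarith
    have h5 : (1 + (-((p : ℝ) / n))) ^ p * (n : ℝ) ^ p = ((n : ℝ) - p) ^ p := by
      rw [← mul_pow]
      congr 1
      field_simp
      ring
    calc (1 - (p : ℝ) ^ 2 / n) * (n : ℝ) ^ p = (1 + (p : ℝ) * (-((p : ℝ) / n))) * (n : ℝ) ^ p := by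
          congr 1
          ring
      _ ≤ (1 + (-((p : ℝ) / n))) ^ p * (n : ℝ) ^ p := mul_le_mul_of_nonneg_right hb (by positivity)
      _ = ((n : ℝ) - p) ^ p := h5
      _ ≤ _ := h3
  have hup : ((r + i).descFactorial i * (j + u).descFactorial j : ℕ) ≤ (r + i) ^ i * (j + u) ^ j :=
    Nat.mul_le_mul (Nat.descFactorial_le_pow _ _) (Nat.descFactorial_le_pow _ _)
  have hkey : (1 - (p : ℝ) ^ 2 / n) * ((r + u).choose r : ℝ) * (n : ℝ) ^ p ≤
      (((r + i : ℕ) : ℝ) ^ i * ((j + u : ℕ) : ℝ) ^ j) * (n.choose (r + i) : ℝ) := by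
    have hid' : ((r + u).choose r : ℝ) * (n.descFactorial p : ℝ) =
        (n.choose (r + i) : ℝ) * (((r + i).descFactorial i * (j + u).descFactorial j : ℕ) : ℝ) := by
      exact_mod_cast hid
    have hup' : (((r + i).descFactorial i * (j + u).descFactorial j : ℕ) : ℝ) ≤
        ((r + i : ℕ) : ℝ) ^ i * ((j + u : ℕ) : ℝ) ^ j := by exact_mod_cast hup
    calc (1 - (p : ℝ) ^ 2 / n) * ((r + u).choose r : ℝ) * (n : ℝ) ^ p
        = ((r + u).choose r : ℝ) * ((1 - (p : ℝ) ^ 2 / n) * (n : ℝ) ^ p) := by ring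
      _ ≤ ((r + u).choose r : ℝ) * (n.descFactorial p : ℝ) :=
          mul_le_mul_of_nonneg_left hlow (Nat.cast_nonneg _)
      _ = (n.choose (r + i) : ℝ) * (((r + i).descFactorial i * (j + u).descFactorial j : ℕ) : ℝ) := hid'
      _ ≤ (n.choose (r + i) : ℝ) * (((r + i : ℕ) : ℝ) ^ i * ((j + u : ℕ) : ℝ) ^ j) :=
          mul_le_mul_of_nonneg_left hup' (Nat.cast_nonneg _)
      _ = _ := by ring
  have hnp : (0 : ℝ) < (n : ℝ) ^ p := by positivity
  have h1 : 1 - ((r + i : ℕ) : ℝ) / (n : ℝ) = ((j + u : ℕ) : ℝ) / n := by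
    rw [eq_div_iff (ne_of_gt hnR), sub_mul, div_mul_cancel₀ _ (ne_of_gt hnR), one_mul]
    have : (n : ℝ) = ((r + i : ℕ) : ℝ) + ((j + u : ℕ) : ℝ) := by
      rw [hndef, hp]
      push_cast
      ring
    rw [this]
    ring
  rw [h1, div_pow, div_pow]
  have h2 : (n : ℝ) ^ p = (n : ℝ) ^ i * (n : ℝ) ^ j := by rw [hp, pow_add]
  have h3 : ((r + i : ℕ) : ℝ) ^ i / (n : ℝ) ^ i * (((j + u : ℕ) : ℝ) ^ j / (n : ℝ) ^ j) *
      (n.choose (r + i) : ℝ) = ((((r + i : ℕ) : ℝ) ^ i * ((j + u : ℕ) : ℝ) ^ j) * (n.choose (r + i) : ℝ)) / (n : ℝ) ^ p := by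
    rw [h2]
    field_simp
  rw [h3, le_div_iff₀ hnp]
  exact hkey

theorem BIN : BIN_stmt := by
  intro p q k i d R hip hidk hkq hpq hR0 hR
  obtain ⟨j, rfl⟩ : ∃ j, p = i + j := ⟨p - i, by omega⟩
  obtain ⟨r, rfl⟩ : ∃ r, k = r + i := ⟨k - i, by omega⟩
  obtain ⟨u, rfl⟩ : ∃ u, q = r + u := ⟨q - r, by omega⟩
  have hn : 0 < i + j + (r + u) := lt_of_le_of_lt (Nat.zero_le _) hpq
  have hm := BIN_main i j r u hn
  have hs := BIN_step (r + u) (r + i) R hkq hR0 hR d (r - d) (by omega)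
  have e1 : r - d + d = r := by omega
  have e2 : r + i - i - d = r - d := by omega
  have e3 : i + j - i = j := by omega
  rw [e1] at hs
  rw [e2, e3]
  have hcast : ((i + j : ℕ) : ℝ) + ((r + u : ℕ) : ℝ) = ((i + j + (r + u) : ℕ) : ℝ) := by push_cast; ring
  rw [hcast]
  have hnR : (0 : ℝ) < ((i + j + (r + u) : ℕ) : ℝ) := by exact_mod_cast hn
  have hnn : 0 ≤ 1 - ((i + j : ℕ) : ℝ) ^ 2 / ((i + j + (r + u) : ℕ) : ℝ) := by
    have : ((i + j : ℕ) : ℝ) ^ 2 / ((i + j + (r + u) : ℕ) : ℝ) ≤ 1 := by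
      rw [div_le_one hnR]
      exact_mod_cast hpq.le
    linarith
  calc (1 - ((i + j : ℕ) : ℝ) ^ 2 / ((i + j + (r + u) : ℕ) : ℝ)) * ((r + u).choose (r - d) : ℝ)
      ≤ (1 - ((i + j : ℕ) : ℝ) ^ 2 / ((i + j + (r + u) : ℕ) : ℝ)) * (R ^ d * ((r + u).choose r : ℝ)) :=
        mul_le_mul_of_nonneg_left hs hnn
    _ = R ^ d * ((1 - ((i + j : ℕ) : ℝ) ^ 2 / ((i + j + (r + u) : ℕ) : ℝ)) * ((r + u).choose r : ℝ)) := by ring
    _ ≤ R ^ d * ((((r + i : ℕ) : ℝ) / ((i + j + (r + u) : ℕ) : ℝ)) ^ i *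
        (1 - ((r + i : ℕ) : ℝ) / ((i + j + (r + u) : ℕ) : ℝ)) ^ j * ((i + j + (r + u)).choose (r + i) : ℝ)) :=
        mul_le_mul_of_nonneg_left hm (by positivity)
    _ = _ := by ring

end Pool.Agent.helper95.NM
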